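import Mathlib

/-!
# Global dimension of smooth algebras (helper module of `MP_f714fc_ag`)

`GD R n`: every `R`-module has projective dimension at most `n`.
* `GD.polynomial`: `GD R n → GD R[X] (n + 1)`.
* `GD.of_etale`: if `B → A` is etale then `GD B n → GD A n`.
* `GD.standardSmooth`: a standard smooth algebra of relative dimension `n` over a field
  satisfies `GD A n`.
* `GD.projective_ker`: if `GD A 2`, the kernel of a linear map between projective modules is
  projective.
-/

universe u

open CategoryTheory TensorProduct Polynomial

namespace Fdim.Loc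

/-- every `R`-module has projective dimension at most `n` -/
def GD (R : Type u) [CommRing R] (n : ℕ) : Prop :=
  ∀ M : ModuleCat.{u} R, HasProjectiveDimensionLE M n

section general

variable {R : Type u} [CommRing R]

/-- a short exact sequence of modules as a short exact sequence in `ModuleCat` -/
lemma shortExact_of {M₁ M₂ M₃ : Type u} [AddCommGroup M₁] [AddCommGroup M₂] [AddCommGroup M₃]
    [Module R M₁] [Module R M₂] [Module R M₃] (f : M₁ →ₗ[R] M₂) (g : M₂ →ₗ[R] M₃)
    (hf : Function.Injective f) (hfg : Function.Exact f g) (hg : Function.Surjective g) :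
    (ShortComplex.mk (ModuleCat.ofHom f) (ModuleCat.ofHom g)
      (by ext x; exact hfg.apply_apply_eq_zero x)).ShortExact :=
  ModuleCat.shortComplex_shortExact _ hfg hf hg

lemma projectiveDimensionLE_zero_iff (M : Type u) [AddCommGroup M] [Module R M] :
    HasProjectiveDimensionLE (ModuleCat.of R M) 0 ↔ Module.Projective R M := by
  rw [← projective_iff_hasProjectiveDimensionLE_zero, IsProjective.iff_projective]

/-- the projective dimension of a kernel -/
lemma pd_ker {M N : Type u} [AddCommGroup M] [Module R M] [AddCommGroup N] [Module R N]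
    [Module.Projective R M] {f : M →ₗ[R] N} (hf : Function.Surjective f) (n : ℕ) :
    HasProjectiveDimensionLE (ModuleCat.of R N) (n + 1) ↔
      HasProjectiveDimensionLE (ModuleCat.of R (LinearMap.ker f)) n := by
  have hS := LinearMap.shortExact_shortComplexKer hf
  have : Projective f.shortComplexKer.X₂ := by
    show Projective (ModuleCat.of R M)
    rw [← IsProjective.iff_projective]; infer_instance
  exact hS.hasProjectiveDimensionLT_X₃_iff n this

/-- the projective dimension of the left term of a short exact sequence with projective middle -/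
lemma pd_iff_of_exact {M₁ M₂ M₃ : Type u} [AddCommGroup M₁] [AddCommGroup M₂] [AddCommGroup M₃]
    [Module R M₁] [Module R M₂] [Module R M₃] [Module.Projective R M₂]
    (f : M₁ →ₗ[R] M₂) (g : M₂ →ₗ[R] M₃)
    (hf : Function.Injective f) (hfg : Function.Exact f g) (hg : Function.Surjective g) (n : ℕ) :
    HasProjectiveDimensionLE (ModuleCat.of R M₃) (n + 1) ↔
      HasProjectiveDimensionLE (ModuleCat.of R M₁) n := by
  have hS := shortExact_of f g hf hfg hg
  have : Projective (ModuleCat.of R M₂) := by
    rw [← IsProjective.iff_projective]; infer_instance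
  exact hS.hasProjectiveDimensionLT_X₃_iff n this

lemma GD.mono {n m : ℕ} (h : GD R n) (hnm : n ≤ m) : GD R m := fun M ↦
  have := h M
  hasProjectiveDimensionLT_of_ge M (n + 1) (m + 1) (by omega)

/-- vanishing of `Ext` above the global dimension -/
theorem GD.subsingleton_ext {n : ℕ} (h : GD R n) (M N : ModuleCat.{u} R) {p : ℕ} (hp : n < p) :
    Subsingleton (Abelian.Ext M N p) := by
  have := h M
  exact HasProjectiveDimensionLT.subsingleton M (n + 1) p hp N

theorem GD.ext_eq_zero {n : ℕ} (h : GD R n) {M N : ModuleCat.{u} R} {p : ℕ} (hp : n < p)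
    (x : Abelian.Ext M N p) : x = 0 :=
  (h.subsingleton_ext M N hp).elim _ _

lemma GD.projective (h : GD R 0) (M : Type u) [AddCommGroup M] [Module R M] :
    Module.Projective R M :=
  (projectiveDimensionLE_zero_iff M).1 (h _)

/-- over a ring of global dimension at most one, kernels of maps from a projective module are
projective -/
lemma GD.projective_ker_one (h : GD R 1) {M N : Type u} [AddCommGroup M] [Module R M]
    [AddCommGroup N] [Module R N] [Module.Projective R M] (f : M →ₗ[R] N) :
    Module.Projective R (LinearMap.ker f) := by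
  rw [← projectiveDimensionLE_zero_iff]
  have e := (pd_ker (f := f.rangeRestrict) f.surjective_rangeRestrict 0).1 (h _)
  rwa [LinearMap.ker_rangeRestrict] at e

/-- over a ring of global dimension at most one, submodules of projective modules are
projective -/
lemma GD.projective_submodule_one (h : GD R 1) {M : Type u} [AddCommGroup M] [Module R M]
    [Module.Projective R M] (N : Submodule R M) : Module.Projective R N := by
  have := h.projective_ker_one N.mkQ
  rwa [Submodule.ker_mkQ] at this

/-- over a ring of global dimension at most two, the kernel of a map between projective modules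
is projective -/
lemma GD.projective_ker_two (h : GD R 2) {M N : Type u} [AddCommGroup M] [Module R M]
    [AddCommGroup N] [Module R N] [Module.Projective R M] [Module.Projective R N]
    (f : M →ₗ[R] N) : Module.Projective R (LinearMap.ker f) := by
  rw [← projectiveDimensionLE_zero_iff]
  have h1 := (pd_ker (f := (LinearMap.range f).mkQ) (Submodule.mkQ_surjective _) 1).1 (h _)
  rw [Submodule.ker_mkQ] at h1
  have e := (pd_ker (f := f.rangeRestrict) f.surjective_rangeRestrict 0).1 h1
  rwa [LinearMap.ker_rangeRestrict] at e

/-- syzygy form: `0 → N → P₁ → P₀ → M → 0` exact with `P₀`, `P₁` projective -/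
lemma GD.projective_syzygy_two (h : GD R 2) {N P₁ P₀ : Type u} [AddCommGroup N] [Module R N]
    [AddCommGroup P₁] [Module R P₁] [AddCommGroup P₀] [Module R P₀]
    [Module.Projective R P₁] [Module.Projective R P₀]
    (i : N →ₗ[R] P₁) (hi : Function.Injective i) (f : P₁ →ₗ[R] P₀)
    (hif : Function.Exact i f) : Module.Projective R N := by
  have := h.projective_ker_two f
  have e : N ≃ₗ[R] LinearMap.ker f :=
    (LinearEquiv.ofInjective i hi).trans (LinearEquiv.ofEq _ _ (LinearMap.exact_iff.1 hif).symm)
  exact Module.Projective.of_equiv e.symm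

end general

section baseChange

variable {B : Type u} [CommRing B] {A : Type u} [CommRing A] [Algebra B A]

/-- projective dimension does not grow under flat base change -/
lemma pd_baseChange [Module.Flat B A] (n : ℕ) (M : Type u) [AddCommGroup M] [Module B M]
    (h : HasProjectiveDimensionLE (ModuleCat.of B M) n) :
    HasProjectiveDimensionLE (ModuleCat.of A (A ⊗[B] M)) n := by
  induction n generalizing M with
  | zero =>
    rw [projectiveDimensionLE_zero_iff] at h ⊢
    infer_instance
  | succ n ih =>
    obtain ⟨P, _, _, _, f, hf⟩ : ∃ (P : Type u) (_ : AddCommGroup P) (_ : Module B P)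
        (_ : Module.Projective B P) (f : P →ₗ[B] M), Function.Surjective f :=
      ⟨M →₀ B, inferInstance, inferInstance, inferInstance,
        Finsupp.linearCombination B id, Finsupp.linearCombination_id_surjective B M⟩
    have h1 := ih _ ((pd_ker hf n).1 h)
    have hex : Function.Exact (LinearMap.ker f).subtype f := by
      rw [LinearMap.exact_iff]; simp
    have h2 : Function.Exact ((LinearMap.ker f).subtype.lTensor A) (f.lTensor A) :=
      lTensor_exact A hex hf
    refine (pd_iff_of_exact ((LinearMap.ker f).subtype.baseChange A) (f.baseChange A)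
      ?_ ?_ ?_ n).2 h1
    · exact Module.Flat.lTensor_preserves_injective_linearMap (M := A) _
        (Submodule.subtype_injective _)
    · exact h2
    · exact LinearMap.lTensor_surjective A hf

/-- an etale (in fact unramified and flat) extension does not raise the global dimension -/
theorem GD.of_unramified_flat [Module.Flat B A] [Algebra.FormallyUnramified B A]
    [Algebra.EssFiniteType B A] {n : ℕ} (h : GD B n) : GD A n := by
  intro M
  let : Module B M := Module.compHom M (algebraMap B A)
  have : IsScalarTower B A M := IsScalarTower.of_algebraMap_smul fun r x ↦ rfl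
  have h1 : HasProjectiveDimensionLE (ModuleCat.of A (A ⊗[B] M)) n :=
    pd_baseChange n M (h (ModuleCat.of B M))
  obtain ⟨π, h2⟩ : ∃ π : A ⊗[B] M →ₗ[A] M,
      π ∘ₗ Algebra.FormallyUnramified.sec B A M = LinearMap.id :=
    ⟨_, Algebra.FormallyUnramified.comp_sec B A M⟩
  refine (Retract.mk (ModuleCat.ofHom (Algebra.FormallyUnramified.sec B A M))
    (ModuleCat.ofHom π) ?_ : Retract M (ModuleCat.of A (A ⊗[B] M))).hasProjectiveDimensionLT _
  rw [← ModuleCat.ofHom_comp, h2]
  rfl

theorem GD.of_etale [Algebra.Etale B A] {n : ℕ} (h : GD B n) : GD A n := by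
  have : Module.Flat B A := inferInstance
  exact GD.of_unramified_flat h

/-- localizations do not raise the global dimension -/
theorem GD.of_isLocalization (S : Submonoid B) [IsLocalization S A] {n : ℕ} (h : GD B n) :
    GD A n := by
  have : Module.Flat B A := IsLocalization.flat A S
  have : Algebra.FormallyUnramified B A := Algebra.FormallyUnramified.of_isLocalization S
  have : Algebra.EssFiniteType B A := Algebra.EssFiniteType.of_isLocalization A S
  exact GD.of_unramified_flat h

end baseChange

theorem GD.of_ringEquiv {B : Type u} [CommRing B] {A : Type u} [CommRing A] (e : B ≃+* A)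
    {n : ℕ} (h : GD B n) : GD A n := by
  let := e.toRingHom.toAlgebra
  have : Algebra.Etale B A := Algebra.Etale.of_equiv
    (AlgEquiv.ofRingEquiv (f := e) (fun x ↦ rfl) : B ≃ₐ[B] A)
  exact GD.of_etale h

section polynomial

variable {R : Type u} [CommRing R] (M : Type u) [AddCommGroup M] [Module R[X] M]
  [Module R M] [IsScalarTower R R[X] M]

/-- the action of `X` on a module over `R[X]` -/
noncomputable def actX : M →ₗ[R] M := (LinearMap.lsmul R[X] M X).restrictScalars R

@[simp] lemma actX_apply (m : M) : actX (R := R) M m = (X : R[X]) • m := rfl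

/-- multiplication `R[X] ⊗ M → M` -/
noncomputable def polyPi : R[X] ⊗[R] M →ₗ[R[X]] M :=
  AlgebraTensorModule.lift
    (((Algebra.lsmul R[X] R[X] M).toLinearMap.flip.restrictScalars R).flip)

@[simp] lemma polyPi_tmul (p : R[X]) (m : M) : polyPi (R := R) M (p ⊗ₜ m) = p • m := rfl

/-- `p ⊗ m ↦ X p ⊗ m - p ⊗ X m` -/
noncomputable def polyDelta : R[X] ⊗[R] M →ₗ[R[X]] R[X] ⊗[R] M :=
  (X : R[X]) • LinearMap.id - AlgebraTensorModule.map LinearMap.id (actX M)

@[simp] lemma polyDelta_tmul (p : R[X]) (m : M) :
    polyDelta (R := R) M (p ⊗ₜ m) = (X * p) ⊗ₜ m - p ⊗ₜ[R] ((X : R[X]) • m) := by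
  simp [polyDelta, smul_tmul']

/-- the components of the left inverse of `polyDelta` -/
noncomputable def polyH : ℕ → (M →ₗ[R] R[X] ⊗[R] M)
  | 0 => 0
  | i + 1 => polyH i ∘ₗ actX M + TensorProduct.mk R R[X] M (X ^ i)

lemma polyH_succ (i : ℕ) (m : M) :
    polyH (R := R) M (i + 1) m = polyH M i ((X : R[X]) • m) + (X ^ i) ⊗ₜ m := rfl

/-- a left inverse of `polyDelta` -/
noncomputable def polyHom : R[X] ⊗[R] M →ₗ[R] R[X] ⊗[R] M :=
  TensorProduct.lift (Polynomial.lsum fun i ↦ LinearMap.toSpanSingleton R _ (polyH M i))

lemma polyHom_monomial (i : ℕ) (r : R) (m : M) :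
    polyHom (R := R) M ((monomial i r) ⊗ₜ m) = r • polyH M i m := by
  simp [polyHom, Polynomial.sum_monomial_index]

lemma polyHom_polyDelta (t : R[X] ⊗[R] M) : polyHom M (polyDelta M t) = t := by
  induction t with
  | zero => simp
  | add x y hx hy => rw [map_add, map_add, hx, hy]
  | tmul p m =>
    induction p using Polynomial.induction_on' with
    | add p q hp hq => rw [add_tmul, map_add, map_add, hp, hq]
    | monomial i r =>
      rw [polyDelta_tmul, map_sub, X_mul_monomial, polyHom_monomial, polyHom_monomial,
        polyH_succ, smul_add, add_sub_cancel_left, smul_tmul', ← C_mul_X_pow_eq_monomial,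
        smul_eq_C_mul]

lemma polyDelta_injective : Function.Injective (polyDelta (R := R) M) :=
  Function.LeftInverse.injective (polyHom_polyDelta M)

lemma sub_mem_range (i : ℕ) (m : M) :
    (X ^ i : R[X]) ⊗ₜ[R] m - 1 ⊗ₜ ((X ^ i : R[X]) • m) ∈
      LinearMap.range (polyDelta (R := R) M) := by
  induction i generalizing m with
  | zero => simp
  | succ i ih =>
    have h := Submodule.add_mem _ (LinearMap.mem_range_self (polyDelta (R := R) M)
      ((X ^ i : R[X]) ⊗ₜ m)) (ih ((X : R[X]) • m))
    rw [polyDelta_tmul, smul_smul] at h
    convert h using 1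
    rw [← pow_succ, ← pow_succ']
    abel

lemma sub_mem_range' (t : R[X] ⊗[R] M) :
    t - 1 ⊗ₜ (polyPi M t) ∈ LinearMap.range (polyDelta (R := R) M) := by
  induction t with
  | zero => simp
  | add x y hx hy =>
    have := Submodule.add_mem _ hx hy
    rw [map_add, tmul_add]
    convert this using 1
    abel
  | tmul p m =>
    induction p using Polynomial.induction_on' with
    | add p q hp hq =>
      have := Submodule.add_mem _ hp hq
      rw [add_tmul, map_add, tmul_add]
      convert this using 1
      abel
    | monomial i r =>
      have h := Submodule.smul_mem _ (C r) (sub_mem_range M i m)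
      rw [smul_sub, smul_tmul', smul_tmul', smul_eq_mul, smul_eq_mul, C_mul_X_pow_eq_monomial,
        mul_one] at h
      rw [polyPi_tmul]
      have e : (C r : R[X]) ⊗ₜ[R] ((X ^ i : R[X]) • m) =
          (1 : R[X]) ⊗ₜ[R] ((monomial i r : R[X]) • m) := by
        rw [show (C r : R[X]) = r • (1 : R[X]) by rw [smul_eq_C_mul, mul_one], smul_tmul,
          ← C_mul_X_pow_eq_monomial, mul_smul, ← algebraMap_eq, algebraMap_smul]
      rwa [e] at h

lemma polyExact : Function.Exact (polyDelta (R := R) M) (polyPi M) := by
  intro t
  constructor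
  · intro ht
    have := sub_mem_range' M t
    rwa [ht, tmul_zero, sub_zero] at this
  · rintro ⟨s, rfl⟩
    induction s with
    | zero => simp
    | add x y hx hy => rw [map_add, map_add, hx, hy, add_zero]
    | tmul p m => simp [mul_comm X p, mul_smul]

lemma polyPi_surjective : Function.Surjective (polyPi (R := R) M) := fun m ↦ ⟨1 ⊗ₜ m, by simp⟩

/-- `gl.dim R[X] ≤ gl.dim R + 1` -/
theorem GD.polynomial {n : ℕ} (h : GD R n) : GD R[X] (n + 1) := by
  intro M
  let : Module R M := Module.compHom M (algebraMap R R[X])
  have : IsScalarTower R R[X] M := IsScalarTower.of_algebraMap_smul fun r x ↦ rfl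
  have h1 : HasProjectiveDimensionLE (ModuleCat.of R[X] (R[X] ⊗[R] M)) n :=
    pd_baseChange n M (h (ModuleCat.of R M))
  have hS := shortExact_of (polyDelta (R := R) M) (polyPi M) (polyDelta_injective M)
    (polyExact M) (polyPi_surjective M)
  exact hS.hasProjectiveDimensionLT_X₃ (n + 1) h1
    (hasProjectiveDimensionLT_of_ge _ (n + 1) (n + 2) (by omega))

end polynomial

section smooth

lemma GD.field (k : Type u) [Field k] : GD k 0 := fun M ↦
  (projectiveDimensionLE_zero_iff M).2 inferInstance

lemma GD.polynomial_field (k : Type u) [Field k] : GD k[X] 1 := (GD.field k).polynomial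

lemma GD.polynomial_polynomial_field (k : Type u) [Field k] : GD k[X][X] 2 :=
  (GD.polynomial_field k).polynomial

theorem GD.mvPolynomial (k : Type u) [Field k] (n : ℕ) : GD (MvPolynomial (Fin n) k) n := by
  induction n with
  | zero =>
    exact GD.of_ringEquiv (MvPolynomial.isEmptyRingEquiv k (Fin 0)).symm (GD.field k)
  | succ n ih =>
    exact GD.of_ringEquiv (MvPolynomial.finSuccEquiv k n).toRingEquiv.symm ih.polynomial

/-- standard smooth algebras of relative dimension `n` over a field have global dimension at
most `n` -/
theorem GD.standardSmooth (k A : Type u) [Field k] [CommRing A] [Algebra k A] (n : ℕ)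
    [Algebra.IsStandardSmoothOfRelativeDimension n k A] : GD A n := by
  obtain ⟨g, hg⟩ := Algebra.IsStandardSmoothOfRelativeDimension.exists_etale_mvPolynomial n k A
  algebraize [g.toRingHom]
  exact GD.of_etale (GD.mvPolynomial k n)

end smooth

end Fdim.Loc
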