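import Mathlib

/-!
# Krull dimension of smooth algebras and finite length (helper module of `MP_f714fc_ag`)

* `ringKrullDim_le_of_quasiFinite`: quasi-finite algebras do not raise the Krull dimension.
* `ringKrullDim_standardSmooth`: a standard smooth algebra of relative dimension `n` over a
  field has Krull dimension at most `n`.
* `isFiniteLength_of_forall_isMaximal`: a finite module all of whose support is maximal has
  finite length.
* `isFiniteLength_of_avoid`: cutting a torsion module on a domain of dimension at most `2` with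
  a function that avoids the non-closed generic points of the support.
-/

universe u

open TensorProduct

namespace Fdim.Loc

section dim

variable {B A : Type*} [CommRing B] [CommRing A] [Algebra B A]

lemma ringKrullDim_le_of_quasiFinite [Algebra.QuasiFinite B A] :
    ringKrullDim A ≤ ringKrullDim B := by
  refine Order.krullDim_le_of_strictMono (PrimeSpectrum.comap (algebraMap B A)) ?_
  intro P Q h
  refine lt_of_le_of_ne (Ideal.comap_mono h.le) ?_
  intro e
  refine h.ne (PrimeSpectrum.ext ?_)
  exact Algebra.QuasiFinite.eq_of_le_of_under_eq (R := B) P.asIdeal Q.asIdeal h.le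
    (congrArg PrimeSpectrum.asIdeal e)

end dim

/-- standard smooth algebras of relative dimension `n` over a field have Krull dimension at
most `n` -/
theorem ringKrullDim_standardSmooth (k A : Type u) [Field k] [CommRing A] [Algebra k A] (n : ℕ)
    [Algebra.IsStandardSmoothOfRelativeDimension n k A] : ringKrullDim A ≤ n := by
  obtain ⟨g, hg⟩ := Algebra.IsStandardSmoothOfRelativeDimension.exists_etale_mvPolynomial n k A
  algebraize [g.toRingHom]
  refine (ringKrullDim_le_of_quasiFinite (B := MvPolynomial (Fin n) k) (A := A)).trans ?_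
  rw [MvPolynomial.ringKrullDim_of_isNoetherianRing]
  simp

section length

variable {A : Type*} [CommRing A]

lemma isFiniteLength_iff_artinian_noetherian {T : Type*} [AddCommGroup T] [Module A T] :
    IsFiniteLength A T ↔ IsNoetherian A T ∧ IsArtinian A T :=
  isFiniteLength_iff_isNoetherian_isArtinian

/-- a finite module whose support consists of maximal ideals has finite length -/
lemma isFiniteLength_of_forall_isMaximal [IsNoetherianRing A] (T : Type*) [AddCommGroup T]
    [Module A T] [Module.Finite A T]
    (h : ∀ p : Ideal A, p.IsPrime → Module.annihilator A T ≤ p → p.IsMaximal) :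
    IsFiniteLength A T := by
  rw [isFiniteLength_iff_isNoetherian_isArtinian]
  refine ⟨inferInstance, ?_⟩
  set I := Module.annihilator A T with hI
  have : IsArtinianRing (A ⧸ I) := by
    rw [isArtinianRing_iff_isNoetherianRing_krullDimLE_zero]
    refine ⟨inferInstance, ?_⟩
    rw [Ring.krullDimLE_zero_iff]
    intro P hP
    have h1 : (P.comap (Ideal.Quotient.mk I)).IsMaximal := by
      refine h _ (Ideal.comap_isPrime _ _) ?_
      intro x hx
      rw [Ideal.mem_comap, Ideal.Quotient.eq_zero_iff_mem.2 hx]
      exact P.zero_mem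
    have h2 := Ideal.map_eq_top_or_isMaximal_of_surjective (Ideal.Quotient.mk I)
      Ideal.Quotient.mk_surjective h1
    rw [Ideal.map_comap_of_surjective _ Ideal.Quotient.mk_surjective] at h2
    exact h2.resolve_left hP.ne_top
  let : Module (A ⧸ I) T := Module.IsTorsionBySet.module
    (Module.isTorsionBySet_annihilator A T)
  have : IsScalarTower A (A ⧸ I) T := Module.IsTorsionBySet.isScalarTower _
  have : Module.Finite (A ⧸ I) T := Module.Finite.of_restrictScalars_finite A (A ⧸ I) T
  have : IsArtinian (A ⧸ I) T := inferInstance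
  exact isArtinian_of_surjective_algebraMap (S := A) (R := A ⧸ I) (M := T)
    Ideal.Quotient.mk_surjective

/-- in a domain of Krull dimension at most two, a prime above a nonzero prime is maximal -/
lemma isMaximal_of_lt [IsDomain A] (hA : ringKrullDim A ≤ 2) {p q : Ideal A} [hp : p.IsPrime]
    [hq : q.IsPrime] (h0 : p ≠ ⊥) (hpq : p < q) : q.IsMaximal := by
  by_contra hm
  obtain ⟨m, hm1, hm2⟩ := Ideal.exists_le_maximal q hq.ne_top
  have hlt : q < m := lt_of_le_of_ne hm2 fun e ↦ hm (e ▸ hm1)
  have hmp := hm1.isPrime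
  let x0 : PrimeSpectrum A := ⟨⊥, Ideal.isPrime_bot⟩
  let x1 : PrimeSpectrum A := ⟨p, hp⟩
  let x2 : PrimeSpectrum A := ⟨q, hq⟩
  let x3 : PrimeSpectrum A := ⟨m, hmp⟩
  have l01 : x0 < x1 := (bot_lt_iff_ne_bot (a := p)).2 h0
  have l12 : x1 < x2 := hpq
  have l23 : x2 < x3 := hlt
  let L : LTSeries (PrimeSpectrum A) :=
    (((RelSeries.singleton _ x0).snoc x1 (by simpa using l01)).snoc x2
      (by simpa using l12)).snoc x3 (by simpa using l23)
  have hL : L.length = 3 := by simp [L]
  have := Order.LTSeries.length_le_krullDim L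
  rw [hL] at this
  have h3 : ((3 : ℕ) : WithBot ℕ∞) ≤ 2 := this.trans hA
  exact absurd h3 (by decide)

/-- in a domain of Krull dimension at most one, a nonzero prime is maximal -/
lemma isMaximal_of_ne_bot [IsDomain A] (hA : ringKrullDim A ≤ 1) {p : Ideal A} [hp : p.IsPrime]
    (h0 : p ≠ ⊥) : p.IsMaximal := by
  by_contra hm
  obtain ⟨m, hm1, hm2⟩ := Ideal.exists_le_maximal p hp.ne_top
  have hlt : p < m := lt_of_le_of_ne hm2 fun e ↦ hm (e ▸ hm1)
  have hmp := hm1.isPrime
  let x0 : PrimeSpectrum A := ⟨⊥, Ideal.isPrime_bot⟩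
  let x1 : PrimeSpectrum A := ⟨p, hp⟩
  let x2 : PrimeSpectrum A := ⟨m, hmp⟩
  have l01 : x0 < x1 := (bot_lt_iff_ne_bot (a := p)).2 h0
  have l12 : x1 < x2 := hlt
  let L : LTSeries (PrimeSpectrum A) :=
    ((RelSeries.singleton _ x0).snoc x1 (by simpa using l01)).snoc x2 (by simpa using l12)
  have hL : L.length = 2 := by simp [L]
  have := Order.LTSeries.length_le_krullDim L
  rw [hL] at this
  have h3 : ((2 : ℕ) : WithBot ℕ∞) ≤ 1 := this.trans hA
  exact absurd h3 (by decide)

/-- Let `A` be a noetherian domain of dimension at most two, `T` a finite torsion module and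
`N` a finite module killed by the annihilator of `T` and by a function `s` that lies in no
non-maximal minimal prime of the annihilator of `T`. Then `N` has finite length. -/
lemma isFiniteLength_of_avoid [IsNoetherianRing A] [IsDomain A] (hA : ringKrullDim A ≤ 2)
    (T : Type*) [AddCommGroup T] [Module A T] (hT : Module.annihilator A T ≠ ⊥)
    (s : A) (hs : ∀ p ∈ (Module.annihilator A T).minimalPrimes, ¬ p.IsMaximal → s ∉ p)
    (N : Type*) [AddCommGroup N] [Module A N] [Module.Finite A N]
    (hN : Module.annihilator A T ≤ Module.annihilator A N) (hsN : s ∈ Module.annihilator A N) :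
    IsFiniteLength A N := by
  refine isFiniteLength_of_forall_isMaximal N fun q hq hNq ↦ ?_
  obtain ⟨p, hp, hpq⟩ := Ideal.exists_minimalPrimes_le (hN.trans hNq)
  by_cases hpm : p.IsMaximal
  · rwa [← hpm.eq_of_le hq.ne_top hpq]
  · have hsp := hs p hp hpm
    have := hp.1.1
    refine isMaximal_of_lt (p := p) hA (fun e ↦ hT (le_bot_iff.1 (e ▸ hp.1.2))) ?_
    exact lt_of_le_of_ne hpq fun e ↦ hsp (e ▸ hNq hsN)

/-- kernel of multiplication by `s` -/
lemma isFiniteLength_ker_of_avoid [IsNoetherianRing A] [IsDomain A] (hA : ringKrullDim A ≤ 2)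
    (T : Type*) [AddCommGroup T] [Module A T] [Module.Finite A T]
    (hT : Module.annihilator A T ≠ ⊥)
    (s : A) (hs : ∀ p ∈ (Module.annihilator A T).minimalPrimes, ¬ p.IsMaximal → s ∉ p) :
    IsFiniteLength A (LinearMap.ker (LinearMap.lsmul A T s)) := by
  refine isFiniteLength_of_avoid hA T hT s hs _ ?_ ?_
  · intro a ha
    rw [Module.mem_annihilator] at ha ⊢
    rintro ⟨t, ht⟩
    exact Subtype.ext (ha t)
  · rw [Module.mem_annihilator]
    rintro ⟨t, ht⟩
    exact Subtype.ext ht

/-- cokernel of multiplication by `s` -/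
lemma isFiniteLength_coker_of_avoid [IsNoetherianRing A] [IsDomain A] (hA : ringKrullDim A ≤ 2)
    (T : Type*) [AddCommGroup T] [Module A T] [Module.Finite A T]
    (hT : Module.annihilator A T ≠ ⊥)
    (s : A) (hs : ∀ p ∈ (Module.annihilator A T).minimalPrimes, ¬ p.IsMaximal → s ∉ p) :
    IsFiniteLength A (T ⧸ LinearMap.range (LinearMap.lsmul A T s)) := by
  refine isFiniteLength_of_avoid hA T hT s hs _ ?_ ?_
  · intro a ha
    rw [Module.mem_annihilator] at ha ⊢
    intro x
    obtain ⟨t, rfl⟩ := Submodule.Quotient.mk_surjective _ x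
    rw [← Submodule.Quotient.mk_smul, ha t]; rfl
  · rw [Module.mem_annihilator]
    intro x
    obtain ⟨t, rfl⟩ := Submodule.Quotient.mk_surjective _ x
    rw [← Submodule.Quotient.mk_smul, Submodule.Quotient.mk_eq_zero]
    exact ⟨t, rfl⟩

end length

end Fdim.Loc
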